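import Pool.Agent.Helper53.Slit.Prob
import Pool.Agent.Helper57.Perc.DualB
import Pool.Agent.Helper46.RSW.RSW

/-!
The crossing probability of the slit strip truncated at height `K L` converges exponentially fast in
`K`, uniformly in the width `L` and in the position of the slit.
-/

set_option autoImplicit false

namespace H47Perc.SL
open Finset Filter Topology SimpleGraph H47Perc.DS
open Pool.Agent.Helper69.RSW (Up P_restrict P_congr P_mono Dep P P_flip P_compl P_indep
  P_nonneg P_le_one P_or_le P_map P_true P_add_of_disjoint)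

/-! ### a primal crossing of a rectangle is not certain -/

lemma joined_up (u v : ℤ × ℤ) : Up (fun ω : Finset (Sym2 (ℤ × ℤ)) => Joined ω u v) :=
  fun _ _ h h' => joined_mono h h'

lemma P_enlarge {F G : Finset (Sym2 (ℤ × ℤ))} (h : F ⊆ G) {A : Finset (Sym2 (ℤ × ℤ)) → Prop}
    (hA : Up A) : P F A ≤ P G A := by
  have hD : Dep F (fun ω : Finset (Sym2 (ℤ × ℤ)) => A (ω ∩ F)) := by
    intro S
    simp only
    rw [inter_assoc, inter_self]
  calc P F A = P F (fun ω => A (ω ∩ F)) := by
        apply P_congr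
        intro S hS
        rw [inter_eq_left.2 hS]
    _ = P G (fun ω => A (ω ∩ F)) := (P_restrict h hD).symm
    _ ≤ _ := P_mono fun S _ hc => hA _ _ inter_subset_left hc

/-- the left-right crossing of the rectangle `[x0,x1] × [y0,y1]` is not certain -/
theorem P_LR_le {x0 x1 y0 y1 : ℤ} {F : Finset (Sym2 (ℤ × ℤ))}
    (hF : edgesIn (box x0 x1 (y0 - 1) (y1 + 1)) ⊆ F) (hx : x0 < x1) (hy : y0 ≤ y1) :
    P F (fun ω => LR x0 x1 y0 y1 (ω ∩ edgesIn (box x0 x1 y0 y1))) ≤
      1 - pLR (y1 - y0 + 1) (x1 - 1 - x0) := by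
  classical
  set G := edgesIn (box x0 x1 (y0 - 1) (y1 + 1)) with hG
  set B := edgesIn (box x0 x1 y0 y1) with hB
  set B' := edgesIn (box x0 (x1 - 1) (y0 - 1) y1) with hB'
  have hBG : B ⊆ G := edgesIn_mono (box_mono le_rfl le_rfl (by omega) (by omega))
  have hD : Dep B (fun ω : Finset (Sym2 (ℤ × ℤ)) => LR x0 x1 y0 y1 (ω ∩ B)) := by
    intro S
    simp only
    rw [inter_assoc, inter_self]
  have e1 : P F (fun ω => LR x0 x1 y0 y1 (ω ∩ B)) = P G (fun ω => LR x0 x1 y0 y1 (ω ∩ B)) := by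
    rw [P_restrict (hBG.trans hF) hD, P_restrict hBG hD]
  -- the dual crossing
  set D : Finset (Sym2 (ℤ × ℤ)) → Prop := fun η => BT x0 (x1 - 1) (y0 - 1) y1 (η ∩ B') with hDdef
  have hB'G : B' ⊆ G.image dE := by
    intro e he
    rw [mem_image]
    rcases edgesIn_cases he with ⟨i, j, rfl⟩ | ⟨i, j, rfl⟩
    · rw [hB', hE_mem, mem_box, mem_box] at he
      simp only at he
      refine ⟨vE (i + 1) j, ?_, ?_⟩
      · rw [hG, vE_mem, mem_box, mem_box]
        simp only
        omega
      · rw [dE_vE]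
        congr 1
        ring
    · rw [hB', vE_mem, mem_box, mem_box] at he
      simp only at he
      refine ⟨hE i (j + 1), ?_, ?_⟩
      · rw [hG, hE_mem, mem_box, mem_box]
        simp only
        omega
      · rw [dE_hE]
        congr 1
        ring
  have e2 : P G (fun ω => D ((G \ ω).image dE)) = pLR (y1 - y0 + 1) (x1 - 1 - x0) := by
    rw [← P_flip G (fun ω => D (ω.image dE)), ← P_image G dE (dE_injOn _) D]
    have hD' : Dep B' D := by
      intro S
      simp only [hDdef]
      rw [inter_assoc, inter_self]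
    rw [P_restrict hB'G hD']
    have e3 : pLR (y1 - y0 + 1) (x1 - 1 - x0) = pLR (y1 - (y0 - 1)) ((x1 - 1) - x0) := by
      congr 1
      ring
    rw [e3, ← perc_BT, Pool.Agent.Helper69.RSW.perc_half_eq]
    apply P_congr
    intro S hS
    simp only [hDdef]
    rw [inter_eq_left.2 hS]
  have e4 : P G (fun ω => LR x0 x1 y0 y1 (ω ∩ B)) ≤ P G (fun ω => ¬ D ((G \ ω).image dE)) := by
    apply P_mono
    rintro ω hω ⟨y, y', h1, h2, h3, h4, h5⟩ ⟨x, x', g1, g2, g3, g4, g5⟩
    refine no_cross (S1 := box x0 x1 y0 y1) (S2 := box x0 (x1 - 1) (y0 - 1) y1) (ω := ω ∩ B)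
      (η := (G \ ω).image dE ∩ B') (a := (x0, y)) (b := (x1, y')) (u := (x', y1)) (v := (x, y0 - 1))
      inter_subset_right inter_subset_right ?_ ?_ ?_ ?_ ?_ h5 (joined_symm g5)
    · rw [mem_box]; simp only; omega
    · rw [mem_box]; simp only; omega
    · intro w hw
      rw [mem_box] at hw
      simp only
      omega
    · intro w hw
      rw [mem_box] at hw
      simp only
      omega
    · intro e he hcon
      rw [mem_inter] at he hcon
      obtain ⟨e', he', h6⟩ := mem_image.1 hcon.1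
      replace he' := Finset.mem_sdiff.1 he'
      have := dE_injOn _ (Finset.mem_coe.2 he'.1) (Finset.mem_coe.2 (hω he.1)) h6
      rw [this] at he'
      exact he'.2 he.1
  have e5 := P_compl G (fun ω => D ((G \ ω).image dE))
  rw [e2] at e5
  linarith

/-! ### the slabs -/

/-- the left side of the `k`-th slab -/
def sx (L : ℤ) (k : ℕ) : ℤ := (k + 1) * (L + 2)

/-- the rectangle of the `k`-th slab -/
noncomputable def sB (L : ℤ) (k : ℕ) : Finset (ℤ × ℤ) :=
  box (sx L k) (sx L k + L + 1) (-(sx L k + L + 1)) (L - sx L k)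

/-- the `k`-th slab is crossed -/
def sE (L : ℤ) (k : ℕ) (ω : Finset (Sym2 (ℤ × ℤ))) : Prop :=
  LR (sx L k) (sx L k + L + 1) (-(sx L k + L + 1)) (L - sx L k) (ω ∩ edgesIn (sB L k))

lemma sE_up (L : ℤ) (k : ℕ) : Up (sE L k) := by
  rintro ω ω' h ⟨y, y', h1, h2, h3, h4, h5⟩
  exact ⟨y, y', h1, h2, h3, h4, joined_mono (inter_subset_inter_right h) h5⟩

lemma sE_dep (L : ℤ) (k : ℕ) : Dep (edgesIn (sB L k)) (sE L k) := by
  intro S
  unfold sE
  rw [inter_assoc, inter_self]

lemma sB_disj {L : ℤ} (hL : 1 ≤ L) {k m : ℕ} (h : k < m) :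
    Disjoint (edgesIn (sB L k)) (edgesIn (sB L m)) := by
  rw [Finset.disjoint_left]
  intro e
  induction e using Sym2.ind with
  | _ u v =>
    unfold sB
    rw [mem_edgesIn, mem_edgesIn, mem_box, mem_box, mem_box, mem_box]
    rintro ⟨h1, _, _⟩ ⟨h2, _, _⟩
    have h3 : (k : ℤ) + 1 ≤ m := by exact_mod_cast h
    have h4 : sx L k + (L + 2) ≤ sx L m := by
      unfold sx
      nlinarith
    omega

/-- the probability that all slabs are crossed -/
theorem P_slabs : ∃ c : ℝ, 0 < c ∧ c ≤ 1 ∧ ∀ L : ℤ, 1 ≤ L → ∀ (m : ℕ) (G : Finset (Sym2 (ℤ × ℤ))),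
    P G (fun ω => ∀ k < m, sE L k ω) ≤ (1 - c) ^ m := by
  obtain ⟨c, hc, h⟩ := H46.rsw_pLR 4
  refine ⟨min c 1, lt_min hc one_pos, min_le_right _ _, ?_⟩
  intro L hL m G
  -- the big edge set
  set bb : ℕ → Finset (Sym2 (ℤ × ℤ)) := fun k =>
    edgesIn (box (sx L k) (sx L k + L + 1) (-(sx L k + L + 1) - 1) (L - sx L k + 1)) with hbb
  set F := G ∪ (range m).biUnion bb with hF
  have hup : Up (fun ω : Finset (Sym2 (ℤ × ℤ)) => ∀ k < m, sE L k ω) :=
    fun S T hST h k hk => sE_up L k S T hST (h k hk)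
  refine (P_enlarge (subset_union_left : G ⊆ F) hup).trans ?_
  have hbF : ∀ k < m, bb k ⊆ F := by
    intro k hk e he
    rw [hF, mem_union, mem_biUnion]
    exact Or.inr ⟨k, mem_range.2 hk, he⟩
  have hsb : ∀ k, edgesIn (sB L k) ⊆ bb k := by
    intro k
    exact edgesIn_mono (box_mono le_rfl le_rfl (by omega) (by omega))
  have hone : ∀ k < m, P F (sE L k) ≤ 1 - min c 1 := by
    intro k hk
    have h1 := P_LR_le (x0 := sx L k) (x1 := sx L k + L + 1) (y0 := -(sx L k + L + 1))
      (y1 := L - sx L k) (F := F) (hbF k hk) (by omega) (by omega)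
    have e1 : L - sx L k - -(sx L k + L + 1) + 1 = 2 * L + 2 := by ring
    have e2 : sx L k + L + 1 - 1 - sx L k = L := by ring
    rw [e1, e2] at h1
    obtain ⟨l, rfl⟩ : ∃ l : ℕ, L = l := ⟨L.toNat, by omega⟩
    have h2 := h l (by omega)
    have h3 : pLR (((4 : ℕ) : ℤ) * l) l ≤ pLR (2 * l + 2) l := by
      apply pLR_anti
      · omega
      · push_cast
        omega
    have h4 : P F (sE l k) ≤ 1 - pLR (2 * l + 2) l := h1
    have h5 := min_le_left c 1
    linarith
  -- induction
  have key : ∀ j ≤ m, P F (fun ω => ∀ k < j, sE L k ω) ≤ (1 - min c 1) ^ j := by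
    intro j
    induction j with
    | zero =>
      intro _
      rw [pow_zero]
      exact P_le_one _ _
    | succ j ih =>
      intro hj
      have e1 : P F (fun ω => ∀ k < j + 1, sE L k ω) =
          P F (fun ω => (∀ k < j, sE L k ω) ∧ sE L j ω) := by
        apply P_congr
        intro S _
        constructor
        · intro h
          exact ⟨fun k hk => h k (by omega), h j (by omega)⟩
        · rintro ⟨h1, h2⟩ k hk
          rcases Nat.lt_succ_iff_lt_or_eq.1 hk with h3 | rfl
          · exact h1 k h3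
          · exact h2
      have hsub : (range j).biUnion (fun k => edgesIn (sB L k)) ⊆ F := by
        intro e he
        rw [mem_biUnion] at he
        obtain ⟨k, hk, he⟩ := he
        exact hbF k (by rw [mem_range] at hk; omega) (hsb k he)
      have hdep : Dep ((range j).biUnion (fun k => edgesIn (sB L k)))
          (fun ω : Finset (Sym2 (ℤ × ℤ)) => ∀ k < j, sE L k ω) := by
        intro S
        apply forall_congr'
        intro k
        apply forall_congr'
        intro hk
        have hk' : edgesIn (sB L k) ⊆ (range j).biUnion (fun k => edgesIn (sB L k)) := by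
          intro e he
          rw [mem_biUnion]
          exact ⟨k, mem_range.2 hk, he⟩
        have h1 := sE_dep L k S
        have h2 := sE_dep L k (S ∩ (range j).biUnion (fun k => edgesIn (sB L k)))
        rw [inter_assoc, inter_eq_right.2 hk'] at h2
        exact h1.trans h2.symm
      have hdisj : Disjoint ((range j).biUnion (fun k => edgesIn (sB L k))) (edgesIn (sB L j)) := by
        rw [Finset.disjoint_biUnion_left]
        intro k hk
        exact sB_disj hL (mem_range.1 hk)
      rw [e1, P_indep hsub ((hsb j).trans (hbF j (by omega))) hdisj hdep (sE_dep L j), pow_succ]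
      exact mul_le_mul (ih (by omega)) (hone j (by omega)) (P_nonneg _ _)
        (pow_nonneg (by linarith [min_le_right c 1]) _)
  exact key m le_rfl

/-! ### deterministic part -/

/-- a path in the strip from the left of `x = a` to the right of `x = a'` -/
lemma slab_of_joined {L M : ℤ} {ω : Finset (Sym2 (ℤ × ℤ))} (hω : ω ⊆ edgesIn (dstrip L M))
    {b c : ℤ × ℤ} (h : Joined ω b c) {a a' : ℤ} (haa : a < a') (hb : b.1 ≤ a) (hc : a' ≤ c.1) :
    LR a a' (-a') (L - a) (ω ∩ edgesIn (box a a' (-a') (L - a))) := by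
  classical
  have hne : b ≠ c := by
    rintro rfl
    omega
  have hbS : b ∈ dstrip L M := mem_of_joined_ne hω h hne
  set T1 := (dstrip L M).filter (fun z => z.1 < a') with hT1
  obtain ⟨w, w', w1, w2, w3, w4, w5, w6⟩ := joined_exit (T := T1) hω h
    (by rw [hT1, mem_filter]; exact ⟨hbS, by omega⟩) (by rw [hT1, mem_filter]; omega)
  rw [hT1, mem_filter] at w1 w2
  have hw' : w'.1 = a' := by
    have h1 : ¬ w'.1 < a' := fun h' => w2 ⟨w3, h'⟩
    have h2 := w1.2
    rcases adj_cases w4 with h' | h' | h' | h' <;> rw [h'] at h1 ⊢ <;> simp only at h1 ⊢ <;> omega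
  set T1' := (dstrip L M).filter (fun z => z.1 ≤ a') with hT1'
  have j1 : Joined (ω ∩ edgesIn T1') b w' := by
    refine joined_trans (joined_mono (inter_subset_inter_left (edgesIn_mono ?_)) w6)
      (joined_edge ?_)
    · intro z hz
      rw [hT1, mem_filter] at hz
      rw [hT1', mem_filter]
      exact ⟨hz.1, hz.2.le⟩
    · rw [mem_inter, mem_edgesIn, hT1', mem_filter, mem_filter]
      exact ⟨w5, ⟨w1.1, w1.2.le⟩, ⟨w3, hw'.le⟩, w4⟩
  set T2 := T1'.filter (fun z => a < z.1) with hT2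
  obtain ⟨v, v', v1, v2, v3, v4, v5, v6⟩ := joined_exit (T := T2) inter_subset_right (joined_symm j1)
    (by rw [hT2, mem_filter, hT1', mem_filter]; exact ⟨⟨w3, hw'.le⟩, by omega⟩)
    (by rw [hT2, mem_filter]; omega)
  rw [hT2, mem_filter] at v1 v2
  have hv' : v'.1 = a := by
    have h1 : ¬ a < v'.1 := fun h' => v2 ⟨v3, h'⟩
    have h2 := v1.2
    rcases adj_cases v4 with h' | h' | h' | h' <;> rw [h'] at h1 ⊢ <;> simp only at h1 ⊢ <;> omega
  have hbox : ∀ z ∈ T1', a ≤ z.1 → z ∈ box a a' (-a') (L - a) := by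
    intro z hz h1
    rw [hT1', mem_filter, mem_dstrip] at hz
    rw [mem_box]
    omega
  have j2 : Joined (ω ∩ edgesIn (box a a' (-a') (L - a))) w' v' := by
    refine joined_trans (joined_mono ?_ v6) (joined_edge ?_)
    · intro e he
      rw [mem_inter, mem_inter] at he
      rw [mem_inter]
      refine ⟨he.1.1, edgesIn_mono ?_ he.2⟩
      intro z hz
      rw [hT2, mem_filter] at hz
      exact hbox z hz.1 hz.2.le
    · rw [mem_inter] at v5
      rw [mem_inter, mem_edgesIn]
      exact ⟨v5.1, hbox v v1.1 v1.2.le, hbox v' v3 hv'.ge, v4⟩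
  have hwb := hbox w' (by rw [hT1', mem_filter]; exact ⟨w3, hw'.le⟩) (by omega)
  have hvb := hbox v' v3 hv'.ge
  rw [mem_box] at hwb hvb
  have ew : w' = (a', w'.2) := by
    ext
    · exact hw'
    · rfl
  have ev : v' = (a, v'.2) := by
    ext
    · exact hv'
    · rfl
  refine ⟨v'.2, w'.2, hvb.2.2.1, hvb.2.2.2, hwb.2.2.1, hwb.2.2.2, ?_⟩
  rw [← ew, ← ev]
  exact joined_symm j2

/-- a long excursion: a vertex at height `0` is joined to a vertex above the height `R` -/
def Exc (R : ℤ) (ω : Finset (Sym2 (ℤ × ℤ))) : Prop :=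
  ∃ b c : ℤ × ℤ, b.1 - b.2 = 0 ∧ R < c.1 - c.2 ∧ Joined ω b c

lemma slabs_of_exc {L M : ℤ} (hL : 1 ≤ L) {K m : ℕ} (hm : m = 0 ∨ 6 * m + 4 ≤ K)
    {ω : Finset (Sym2 (ℤ × ℤ))} (hω : ω ⊆ edgesIn (dstrip L M)) (h : Exc (K * L) ω) :
    ∀ k < m, sE L k ω := by
  intro k hk
  obtain ⟨b, c, h1, h2, h3⟩ := h
  have hm' : 6 * (m : ℤ) + 4 ≤ K := by omega
  have hk' : (k : ℤ) + 1 ≤ m := by exact_mod_cast hk
  have hk0 : (0 : ℤ) ≤ k := by positivity
  have g1 : (6 * (m : ℤ) + 4) * L ≤ K * L := mul_le_mul_of_nonneg_right hm' (by omega)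
  have g2 : ((k : ℤ) + 1) * (L + 2) ≤ m * (L + 2) := mul_le_mul_of_nonneg_right hk' (by omega)
  have g3 : (m : ℤ) * (L + 2) ≤ m * (3 * L) := mul_le_mul_of_nonneg_left (by omega) (by omega)
  have g4 : (1 : ℤ) * (L + 2) ≤ ((k : ℤ) + 1) * (L + 2) :=
    mul_le_mul_of_nonneg_right (by omega) (by omega)
  have g5 : (6 * (m : ℤ) + 4) * L = 2 * (m * (3 * L)) + 4 * L := by ring
  have hne : b ≠ c := by
    rintro rfl
    have : (0 : ℤ) ≤ K * L := by positivity
    omega
  have hb := mem_dstrip.1 (mem_of_joined_ne hω h3 hne)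
  have hc := mem_dstrip.1 (mem_of_joined_ne hω (joined_symm h3) hne.symm)
  exact slab_of_joined hω h3 (by omega) (by unfold sx; omega) (by unfold sx; omega)

lemma joined_transp {ω : Finset (Sym2 (ℤ × ℤ))} {u v : ℤ × ℤ} (h : Joined ω u v) :
    Joined (ω.map (emb transp)) (transp u) (transp v) := joined_map.2 h

open Classical in
lemma exc_of_cr {L i M R : ℤ} (hi : i < L) {ω : Finset (Sym2 (ℤ × ℤ))} (hω : ω ⊆ slitE L i M)
    (hc : Cr L i ω) (hn : ¬ Cr L i (ω ∩ slitE L i R)) :
    Exc R ω ∨ Exc R (ω.map (emb transp)) := by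
  obtain ⟨z, z', h1, h2, h3, h4⟩ := hc
  have hωS : ω ⊆ edgesIn (dstrip L M) := hω.trans (filter_subset _ _)
  have hne : z ≠ z' := by
    rintro rfl
    omega
  have hz : z ∈ dstrip L M := mem_of_joined_ne hωS h4 hne
  set T := (dstrip L M).filter (fun v => v.1 + v.2 ≤ i ∧ 1 ≤ v.1 - v.2) with hT
  obtain ⟨w, w', w1, w2, w3, w4, w5, w6⟩ := joined_exit (T := T) hωS h4
    (by rw [hT, mem_filter]; exact ⟨hz, by omega, h2⟩) (by rw [hT, mem_filter]; omega)
  rw [hT, mem_filter] at w1 w2
  have hcut : ¬ Cut i s(w, w') := by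
    have := hω w5
    unfold slitE at this
    exact (mem_filter.1 this).2
  rw [cut_mk] at hcut
  have hw' : w'.1 - w'.2 = 0 := by
    have g1 := adj_level w4
    have g2 := adj_sum w4
    have g3 : ¬ (w'.1 + w'.2 ≤ i ∧ 1 ≤ w'.1 - w'.2) := fun h => w2 ⟨w3, h⟩
    omega
  have hj : Joined ω z w' := joined_trans (joined_mono inter_subset_left w6) (joined_edge w5)
  by_contra hcon
  have hfar : ∀ v, Joined ω z v → |v.1 - v.2| ≤ R := by
    intro v hv
    by_contra hvR
    apply hcon
    rw [abs_le] at hvR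
    by_cases hs : R < v.1 - v.2
    · exact Or.inl ⟨w', v, hw', hs, joined_trans (joined_symm hj) hv⟩
    · refine Or.inr ⟨transp w', transp v, ?_, ?_, joined_transp (joined_trans (joined_symm hj) hv)⟩
      · change w'.2 - w'.1 = 0
        omega
      · change R < v.2 - v.1
        omega
  apply hn
  refine ⟨z, z', h1, h2, h3, ?_⟩
  refine (joined_closed (C := fun v => Joined ω z v ∧ Joined (ω ∩ slitE L i R) z v) ?_ h4
    ⟨joined_refl _ _, joined_refl _ _⟩).2
  rintro a b hab ⟨ha1, ha2⟩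
  have hb1 : Joined ω z b := joined_trans ha1 (joined_edge hab)
  refine ⟨hb1, joined_trans ha2 (joined_edge ?_)⟩
  rw [mem_inter]
  refine ⟨hab, ?_⟩
  have hab' := hω hab
  unfold slitE at hab' ⊢
  rw [mem_filter, mem_edgesIn, mem_dstrip, mem_dstrip] at hab' ⊢
  have e1 := hfar a ha1
  have e2 := hfar b hb1
  exact ⟨⟨⟨hab'.1.1.1, hab'.1.1.2.1, e1⟩, ⟨hab'.1.2.1.1, hab'.1.2.1.2.1, e2⟩, hab'.1.2.2⟩, hab'.2⟩

/-! ### the truncation error -/

open Classical in
/-- **Truncation**: the crossing probability of the slit strip converges exponentially fast in the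
height, measured in units of the width, uniformly. -/
theorem pSlit_trunc : ∃ c : ℝ, 0 < c ∧ ∃ C : ℝ, 0 < C ∧ ∀ L i : ℤ, 1 ≤ L → i < L →
    ∀ (K : ℕ) (M : ℤ), K * L ≤ M →
      pSlit L i M - pSlit L i (K * L) ≤ C * Real.exp (-(c * K)) := by
  obtain ⟨c, hc, hc1, hP⟩ := P_slabs
  refine ⟨c / 6, by positivity, 2 * Real.exp (3 * c / 2), by positivity, ?_⟩
  intro L i hL hi K M hM
  set m : ℕ := (K - 4) / 6 with hm
  have hm1 : m = 0 ∨ 6 * m + 4 ≤ K := by omega
  set F := slitE L i M with hF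
  set F' := slitE L i (K * L) with hF'
  have hsub : F' ⊆ F := by
    intro e he
    rw [hF', slitE] at he
    rw [hF, slitE]
    rw [mem_filter] at he ⊢
    refine ⟨edgesIn_mono ?_ he.1, he.2⟩
    intro z hz
    rw [mem_dstrip] at hz ⊢
    exact ⟨hz.1, hz.2.1, hz.2.2.trans hM⟩
  have hFS : F ⊆ edgesIn (dstrip L M) := filter_subset _ _
  have hD : Dep F' (fun ω : Finset (Sym2 (ℤ × ℤ)) => Cr L i (ω ∩ F')) := by
    intro S
    simp only
    rw [inter_assoc, inter_self]
  have e1 : pSlit L i (K * L) = P F (fun ω => Cr L i (ω ∩ F')) := by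
    rw [P_restrict hsub hD]
    unfold pSlit
    apply P_congr
    intro S hS
    rw [inter_eq_left.2 hS]
  have e2 : pSlit L i M ≤ P F (fun ω => Cr L i (ω ∩ F')) +
      (P F (fun ω => ∀ k < m, sE L k ω) + P F (fun ω => ∀ k < m, sE L k (ω.map (emb transp)))) := by
    refine le_trans ?_ ((P_or_le F _ _).trans (add_le_add_right (P_or_le F _ _) _))
    unfold pSlit
    apply P_mono
    intro ω hω hcr
    by_cases hn : Cr L i (ω ∩ F')
    · exact Or.inl hn
    · right
      have htr : ω.map (emb transp) ⊆ edgesIn (dstrip L M) := by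
        have h1 : (dstrip L M).map transp.toEmbedding = dstrip L M := by
          ext z
          rw [mem_map_equiv, mem_dstrip, mem_dstrip]
          change (0 ≤ z.2 + z.1 ∧ z.2 + z.1 ≤ L ∧ |z.2 - z.1| ≤ M) ↔ _
          rw [abs_sub_comm, add_comm]
        rw [← h1, edgesIn_map transp_iso]
        exact Finset.map_subset_map.2 (hω.trans hFS)
      rcases exc_of_cr hi hω hcr hn with h | h
      · exact Or.inl (slabs_of_exc hL hm1 (hω.trans hFS) h)
      · exact Or.inr (slabs_of_exc hL hm1 htr h)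
  have e3 := hP L hL m F
  have e4 : P F (fun ω => ∀ k < m, sE L k (ω.map (emb transp))) ≤ (1 - c) ^ m := by
    rw [← P_map F (emb transp) (fun ω => ∀ k < m, sE L k ω)]
    exact hP L hL m _
  have e5 : (1 - c) ^ m ≤ Real.exp (3 * c / 2) * Real.exp (-(c / 6 * K)) := by
    have h1 : (1 - c) ^ m ≤ (Real.exp (-c)) ^ m :=
      pow_le_pow_left₀ (by linarith) (Real.one_sub_le_exp_neg c) m
    refine h1.trans ?_
    rw [← Real.exp_nat_mul, ← Real.exp_add]
    apply Real.exp_le_exp.2
    have h2 : (K : ℝ) ≤ 6 * m + 9 := by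
      have : K ≤ 6 * m + 9 := by omega
      exact_mod_cast this
    nlinarith
  rw [e1]
  linarith

end H47Perc.SL
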